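import Pool.Agent.Helper891_QD.Kum

/-!
# The odd part of a quaternion extension is a module of rank one over the Hamilton quaternions
-/

set_option autoImplicit false
set_option linter.unusedSectionVars false

namespace Pool.Agent.Helper891_QD

open Module

variable {K : Type} [Field K] [Algebra ℚ K] [FiniteDimensional ℚ K] [IsGalois ℚ K]
  (e : Gal(K/ℚ) ≃* QuaternionGroup 2)

include e

/-- eigenvectors -/
lemma exists_eigen (ε : Gal(K/ℚ) → ZMod 2) (hε : ∀ g h, ε (g * h) = ε g + ε h) :
    ∃ A : K, A ≠ 0 ∧ ∀ g, g A = sg K (ε g) * A := by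
  classical
  have hli : LinearIndependent K (fun g : Gal(K/ℚ) => (fun x : K => g x)) := by
    refine (linearIndependent_monoidHom K K).comp (fun g : Gal(K/ℚ) => ((g : K →+* K) : K →* K)) ?_
    intro g h hgh
    ext x
    exact DFunLike.congr_fun hgh x
  rw [Fintype.linearIndependent_iff] at hli
  have h1 : ∃ w : K, ∑ g : Gal(K/ℚ), sg K (ε g) * g w ≠ 0 := by
    by_contra hc
    push Not at hc
    have := hli (fun g => sg K (ε g)) (by
      funext w
      simp only [Finset.sum_apply, Pi.smul_apply, smul_eq_mul, Pi.zero_apply]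
      exact hc w) 1
    exact sg_ne _ this
  obtain ⟨w, hw⟩ := h1
  refine ⟨_, hw, fun g => ?_⟩
  rw [map_sum, Finset.mul_sum]
  refine Fintype.sum_equiv (Equiv.mulLeft g) _ _ fun h => ?_
  rw [map_mul, map_sg, Equiv.coe_mulLeft, hε, sg_add, AlgEquiv.mul_apply]
  have h4 : sg K (ε g) * sg K (ε g) = 1 := by
    rw [← sg_add, CharTwo.add_self_eq_zero, sg_zero]
  linear_combination (-(sg K (ε h) * g (h w))) * h4

lemma rat_of_fixed' {X : K} (h : ∀ σ : Gal(K/ℚ), σ X = X) : ∃ q : ℚ, algebraMap ℚ K q = X :=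
  (IsGalois.mem_range_algebraMap_iff_fixed (F := ℚ) X).2 h

/-- the vectors -/
theorem exists_vec : ∃ (A B : K) (a b a1 a2 a3 b1 b2 b3 : ℚ), A ≠ 0 ∧ B ≠ 0 ∧
    A * A = algebraMap ℚ K a ∧ B * B = algebraMap ℚ K b ∧
    (∀ g, g A = sg K (be (e g)) * A) ∧ (∀ g, g B = sg K (al (e g)) * B) ∧
    a = a1 * a1 + a2 * a2 + a3 * a3 ∧ b = b1 * b1 + b2 * b2 + b3 * b3 ∧
    a1 * b1 + a2 * b2 + a3 * b3 = 0 := by
  obtain ⟨A, hA0, hA⟩ := exists_eigen e (fun g => be (e g)) (fun g h => by rw [map_mul, be_mul])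
  obtain ⟨B, hB0, hB⟩ := exists_eigen e (fun g => al (e g)) (fun g h => by rw [map_mul, al_mul])
  have hsq : ∀ (c : ZMod 2), sg K c * sg K c = 1 := fun c => by
    rw [← sg_add, CharTwo.add_self_eq_zero, sg_zero]
  obtain ⟨a, ha⟩ := rat_of_fixed' e (X := A * A) fun g => by
    rw [map_mul, hA g]
    linear_combination (A * A) * hsq (be (e g))
  obtain ⟨b, hb⟩ := rat_of_fixed' e (X := B * B) fun g => by
    rw [map_mul, hB g]
    linear_combination (B * B) * hsq (al (e g))
  set gI : Gal(K/ℚ) := e.symm (.a 1) with hgI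
  set gJ : Gal(K/ℚ) := e.symm (.xa 0) with hgJ
  set z : Gal(K/ℚ) := e.symm (.a 2) with hz
  have eI : e gI = .a 1 := e.apply_symm_apply _
  have eJ : e gJ = .xa 0 := e.apply_symm_apply _
  have ez : e z = .a 2 := e.apply_symm_apply _
  have rII : gI * gI = z := e.injective (by rw [map_mul, eI, ez]; decide)
  have rJJ : gJ * gJ = z := e.injective (by rw [map_mul, eJ, ez]; decide)
  have rJI : gJ * gI = gI * gJ * z := e.injective (by
    rw [map_mul, map_mul, map_mul, eI, eJ, ez]; decide)
  have rIz : gI * z = z * gI := e.injective (by rw [map_mul, map_mul, eI, ez]; decide)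
  have rJz : gJ * z = z * gJ := e.injective (by rw [map_mul, map_mul, eJ, ez]; decide)
  have rzz : z * z = 1 := e.injective (by rw [map_mul, ez, map_one]; decide)
  have hz1 : z ≠ 1 := by
    intro h
    have := congrArg e h
    rw [ez, map_one] at this
    exact absurd this (by decide)
  have IA : gI A = A := by
    rw [hA, eI, show be (.a 1) = 0 from rfl, sg_zero, one_mul]
  have JA : gJ A = -A := by
    rw [hA, eJ, show be (.xa 0) = 1 from rfl, sg_one]; ring
  have IB : gI B = -B := by
    rw [hB, eI, show al (.a 1) = 1 from by decide, sg_one]; ring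
  have JB : gJ B = B := by
    rw [hB, eJ, show al (.xa 0) = 0 from by decide, sg_zero, one_mul]
  have zA : z A = A := by
    rw [hA, ez, show be (.a 2) = 0 from rfl, sg_zero, one_mul]
  have zB : z B = B := by
    rw [hB, ez, show al (.a 2) = 0 from by decide, sg_zero, one_mul]
  -- the odd part
  let V : Submodule ℚ K := LinearMap.ker (z.toLinearMap + LinearMap.id)
  have hV : ∀ x, x ∈ V ↔ z x = -x := fun x => by
    rw [LinearMap.mem_ker, LinearMap.add_apply, LinearMap.id_apply, add_eq_zero_iff_eq_neg]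
    rfl
  obtain ⟨v, hv0, hv⟩ : ∃ v : K, v ≠ 0 ∧ z v = -v := by
    have h1 : ∃ w, z w ≠ w := by
      by_contra hc
      push Not at hc
      exact hz1 (AlgEquiv.ext hc)
    obtain ⟨w, hw⟩ := h1
    refine ⟨w - z w, sub_ne_zero.2 (Ne.symm hw), ?_⟩
    rw [map_sub, ← AlgEquiv.mul_apply, rzz, AlgEquiv.one_apply]; ring
  have hdim : finrank ℚ V ≤ 4 := by
    have h1 : finrank ℚ K = 8 := by
      rw [← IsGalois.card_aut_eq_finrank, Nat.card_congr e.toEquiv, Nat.card_eq_fintype_card,
        QuaternionGroup.card]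
    let m : K →ₗ[ℚ] K := LinearMap.mulLeft ℚ v
    have hm : Function.Injective m := fun x y h => mul_left_cancel₀ hv0 h
    have h2 : finrank ℚ (V.map m) = finrank ℚ V :=
      (Submodule.equivMapOfInjective m hm V).finrank_eq.symm
    have h3 : Disjoint V (V.map m) := by
      rw [Submodule.disjoint_def]
      rintro x hx ⟨y, hy, rfl⟩
      have h4 := (hV _).1 hx
      have h5 := (hV _).1 hy
      change z (v * y) = -(v * y) at h4
      change v * y = 0
      rw [map_mul, hv, h5] at h4
      have h6 : (2 : K) * (v * y) = 0 := by linear_combination h4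
      have : CharZero K := algebraRat.charZero K
      exact (mul_eq_zero.1 h6).resolve_left two_ne_zero
    have h4 := Submodule.finrank_add_finrank_le_of_disjoint h3
    omega
  have IIv : ∀ x, z x = -x → gI (gI x) = -x := fun x hx => by
    rw [← AlgEquiv.mul_apply, rII, hx]
  have JJv : ∀ x, z x = -x → gJ (gJ x) = -x := fun x hx => by
    rw [← AlgEquiv.mul_apply, rJJ, hx]
  have JIv : ∀ x, z x = -x → gJ (gI x) = -gI (gJ x) := fun x hx => by
    rw [← AlgEquiv.mul_apply, rJI, AlgEquiv.mul_apply, AlgEquiv.mul_apply, hx, map_neg, map_neg]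
  have zI : ∀ x, z x = -x → z (gI x) = -gI x := fun x hx => by
    rw [← AlgEquiv.mul_apply, ← rIz, AlgEquiv.mul_apply, hx, map_neg]
  have zJ : ∀ x, z x = -x → z (gJ x) = -gJ x := fun x hx => by
    rw [← AlgEquiv.mul_apply, ← rJz, AlgEquiv.mul_apply, hx, map_neg]
  set ι : ℚ →+* K := algebraMap ℚ K with hι
  set V1 : K := gI v with hV1
  set V2 : K := gJ v with hV2
  set V3 : K := gI V2 with hV3
  have I1 : gI V1 = -v := IIv _ hv
  have I3 : gI V3 = -V2 := IIv _ (zJ _ hv)
  have J1 : gJ V1 = -V3 := JIv _ hv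
  have J2 : gJ V2 = -v := JJv _ hv
  have J3 : gJ V3 = V1 := by
    rw [hV3, JIv _ (zJ _ hv), J2, map_neg, neg_neg]
  have mI : ∀ c : ℚ, gI (ι c) = ι c := fun c => gI.commutes c
  have mJ : ∀ c : ℚ, gJ (ι c) = ι c := fun c => gJ.commutes c
  -- independence
  have ind : ∀ c0 c1 c2 c3 : ℚ, ι c0 * v + ι c1 * V1 + ι c2 * V2 + ι c3 * V3 = 0 →
      c0 = 0 ∧ c1 = 0 ∧ c2 = 0 ∧ c3 = 0 := by
    intro c0 c1 c2 c3 h
    have h1 := congrArg gI h
    rw [map_zero, map_add, map_add, map_add, map_mul, map_mul, map_mul, map_mul, mI, mI, mI, mI,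
      I1, I3, ← hV1, ← hV3] at h1
    have h2 := congrArg gJ h
    rw [map_zero, map_add, map_add, map_add, map_mul, map_mul, map_mul, map_mul, mJ, mJ, mJ, mJ,
      J1, J2, J3, ← hV2] at h2
    have h3 := congrArg gI h2
    rw [map_zero, map_add, map_add, map_add, map_mul, map_mul, map_mul, map_mul, mI, mI, mI, mI,
      map_neg, map_neg, I1, I3, ← hV1, ← hV3] at h3
    have h4 : ι (c0 * c0 + c1 * c1 + c2 * c2 + c3 * c3) * v = 0 := by
      simp only [map_add, map_mul]
      linear_combination ι c0 * h - ι c1 * h1 - ι c2 * h2 - ι c3 * h3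
    have h5 := (map_eq_zero ι).1 ((mul_eq_zero.1 h4).resolve_right hv0)
    refine ⟨?_, ?_, ?_, ?_⟩ <;> nlinarith [mul_self_nonneg c0, mul_self_nonneg c1,
      mul_self_nonneg c2, mul_self_nonneg c3]
  let T : (Fin 4 → ℚ) →ₗ[ℚ] K :=
    { toFun := fun r => r 0 • v + r 1 • V1 + r 2 • V2 + r 3 • V3
      map_add' := fun p q => by
        simp only [Pi.add_apply, add_smul]
        abel
      map_smul' := fun c q => by
        simp only [Pi.smul_apply, smul_eq_mul, RingHom.id_apply]
        module }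
  have hT : ∀ r, T r = ι (r 0) * v + ι (r 1) * V1 + ι (r 2) * V2 + ι (r 3) * V3 := fun r => by
    change r 0 • v + r 1 • V1 + r 2 • V2 + r 3 • V3 = _
    rw [Algebra.smul_def, Algebra.smul_def, Algebra.smul_def, Algebra.smul_def]
  have hTi : Function.Injective T := by
    rw [← LinearMap.ker_eq_bot, LinearMap.ker_eq_bot']
    intro q hq
    rw [hT] at hq
    obtain ⟨k0, k1, k2, k3⟩ := ind _ _ _ _ hq
    funext i
    fin_cases i
    · exact k0
    · exact k1
    · exact k2
    · exact k3
  have hrange : LinearMap.range T = V := by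
    apply Submodule.eq_of_le_of_finrank_le
    · rintro x ⟨q, rfl⟩
      rw [hV, hT]
      simp only [map_add, map_mul]
      rw [show z v = -v from hv, show z V1 = -V1 from zI _ hv, show z V2 = -V2 from zJ _ hv,
        show z V3 = -V3 from zI _ (zJ _ hv), show z (ι (q 0)) = ι (q 0) from z.commutes _,
        show z (ι (q 1)) = ι (q 1) from z.commutes _, show z (ι (q 2)) = ι (q 2) from z.commutes _,
        show z (ι (q 3)) = ι (q 3) from z.commutes _]
      ring
    · rw [LinearMap.finrank_range_of_inj hTi, Module.finrank_fin_fun]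
      exact hdim
  have hex : ∀ x, z x = -x → ∃ c0 c1 c2 c3 : ℚ,
      x = ι c0 * v + ι c1 * V1 + ι c2 * V2 + ι c3 * V3 := fun x hx => by
    have : x ∈ LinearMap.range T := by rw [hrange, hV, hx]
    obtain ⟨r, hr⟩ := this
    exact ⟨r 0, r 1, r 2, r 3, by rw [← hr, hT]⟩
  obtain ⟨x0, x1, x2, x3, A1⟩ := hex (A * V1) (by rw [map_mul, zA, zI _ hv]; ring)
  obtain ⟨y0, y1, y2, y3, B2⟩ := hex (B * V2) (by rw [map_mul, zB, zJ _ hv]; ring)
  have A0 : A * v = ι x1 * v - ι x0 * V1 + ι x3 * V2 - ι x2 * V3 := by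
    have h1 := congrArg gI A1
    rw [map_add, map_add, map_add, map_mul, map_mul, map_mul, map_mul, map_mul, mI, mI, mI, mI,
      I1, I3, IA, ← hV1, ← hV3] at h1
    linear_combination -h1
  have A3 : A * V3 = -ι x2 * v + ι x3 * V1 + ι x0 * V2 - ι x1 * V3 := by
    have h1 := congrArg gJ A1
    rw [map_add, map_add, map_add, map_mul, map_mul, map_mul, map_mul, map_mul, mJ, mJ, mJ, mJ,
      J1, J2, J3, JA, ← hV2] at h1
    linear_combination h1
  have A2 : A * V2 = ι x3 * v + ι x2 * V1 - ι x1 * V2 - ι x0 * V3 := by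
    have h1 := congrArg gI A3
    rw [map_sub, map_add, map_add, map_mul, map_mul, map_mul, map_mul, map_mul, map_neg, mI, mI,
      mI, mI, I1, I3, IA, ← hV1, ← hV3] at h1
    linear_combination -h1
  have B0 : B * v = ι y2 * v - ι y3 * V1 - ι y0 * V2 + ι y1 * V3 := by
    have h1 := congrArg gJ B2
    rw [map_add, map_add, map_add, map_mul, map_mul, map_mul, map_mul, map_mul, mJ, mJ, mJ, mJ,
      J1, J2, J3, JB, ← hV2] at h1
    linear_combination -h1
  have B3 : B * V3 = ι y1 * v - ι y0 * V1 + ι y3 * V2 - ι y2 * V3 := by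
    have h1 := congrArg gI B2
    rw [map_add, map_add, map_add, map_mul, map_mul, map_mul, map_mul, map_mul, mI, mI, mI, mI,
      I1, I3, IB, ← hV1, ← hV3] at h1
    linear_combination -h1
  have B1 : B * V1 = -ι y3 * v - ι y2 * V1 + ι y1 * V2 + ι y0 * V3 := by
    have h1 := congrArg gJ B3
    rw [map_sub, map_add, map_sub, map_mul, map_mul, map_mul, map_mul, map_mul, mJ, mJ, mJ, mJ,
      J1, J2, J3, JB, ← hV2] at h1
    linear_combination h1
  have ha0 : a ≠ 0 := by
    rintro rfl
    rw [map_zero] at ha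
    exact (mul_ne_zero hA0 hA0) ha.symm
  have hb0 : b ≠ 0 := by
    rintro rfl
    rw [map_zero] at hb
    exact (mul_ne_zero hB0 hB0) hb.symm
  obtain ⟨p0, p1, p2, p3⟩ := ind (x1 * x1 + x2 * x2 + x3 * x3 - x0 * x0 - a) (-2 * x0 * x1)
    (-2 * x0 * x2) (-2 * x0 * x3) (by
      simp only [map_add, map_mul, map_sub, map_neg, map_ofNat]
      linear_combination (-A) * A0 - ι x1 * A0 + ι x0 * A1 - ι x3 * A2 + ι x2 * A3 - v * ha)
  obtain ⟨q0, q1, q2, q3⟩ := ind (y1 * y1 + y2 * y2 + y3 * y3 - y0 * y0 - b) (-2 * y0 * y1)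
    (-2 * y0 * y2) (-2 * y0 * y3) (by
      simp only [map_add, map_mul, map_sub, map_neg, map_ofNat]
      linear_combination (-B) * B0 - ι y2 * B0 + ι y3 * B1 + ι y0 * B2 - ι y1 * B3 - v * hb)
  obtain ⟨r0, r1, r2, r3⟩ := ind (-2 * (x0 * y3 + x3 * y0)) (-2 * (x0 * y2 + x2 * y0))
    (2 * (x1 * y0 + x0 * y1)) (-2 * (x1 * y1 + x2 * y2 + x3 * y3 - x0 * y0)) (by
      simp only [map_add, map_mul, map_sub, map_neg, map_ofNat]
      linear_combination (-A) * B0 + B * A0 - ι y2 * A0 + ι y3 * A1 + ι y0 * A2 - ι y1 * A3 +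
        ι x1 * B0 - ι x0 * B1 + ι x3 * B2 - ι x2 * B3)
  have hx0 : x0 = 0 := by
    by_contra hne
    have h1 : x1 = 0 := by
      have : x0 * x1 = 0 := by linear_combination -p1 / 2
      exact (mul_eq_zero.1 this).resolve_left hne
    have h2 : x2 = 0 := by
      have : x0 * x2 = 0 := by linear_combination -p2 / 2
      exact (mul_eq_zero.1 this).resolve_left hne
    have h3 : x3 = 0 := by
      have : x0 * x3 = 0 := by linear_combination -p3 / 2
      exact (mul_eq_zero.1 this).resolve_left hne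
    subst h1 h2 h3
    have k0 : y0 = 0 := by
      have : x0 * y0 = 0 := by linear_combination r3 / 2
      exact (mul_eq_zero.1 this).resolve_left hne
    have k1 : y1 = 0 := by
      have : x0 * y1 = 0 := by linear_combination r2 / 2
      exact (mul_eq_zero.1 this).resolve_left hne
    have k2 : y2 = 0 := by
      have : x0 * y2 = 0 := by linear_combination -r1 / 2
      exact (mul_eq_zero.1 this).resolve_left hne
    have k3 : y3 = 0 := by
      have : x0 * y3 = 0 := by linear_combination -r0 / 2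
      exact (mul_eq_zero.1 this).resolve_left hne
    subst k0 k1 k2 k3
    apply hb0
    linear_combination -q0
  have hy0 : y0 = 0 := by
    by_contra hne
    have h1 : y1 = 0 := by
      have : y0 * y1 = 0 := by linear_combination -q1 / 2
      exact (mul_eq_zero.1 this).resolve_left hne
    have h2 : y2 = 0 := by
      have : y0 * y2 = 0 := by linear_combination -q2 / 2
      exact (mul_eq_zero.1 this).resolve_left hne
    have h3 : y3 = 0 := by
      have : y0 * y3 = 0 := by linear_combination -q3 / 2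
      exact (mul_eq_zero.1 this).resolve_left hne
    subst h1 h2 h3 hx0
    have k1 : x1 = 0 := by
      have : y0 * x1 = 0 := by linear_combination r2 / 2
      exact (mul_eq_zero.1 this).resolve_left hne
    have k2 : x2 = 0 := by
      have : y0 * x2 = 0 := by linear_combination -r1 / 2
      exact (mul_eq_zero.1 this).resolve_left hne
    have k3 : x3 = 0 := by
      have : y0 * x3 = 0 := by linear_combination -r0 / 2
      exact (mul_eq_zero.1 this).resolve_left hne
    subst k1 k2 k3
    apply ha0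
    linear_combination -p0
  subst hx0 hy0
  exact ⟨A, B, a, b, x1, x2, x3, y1, y2, y3, hA0, hB0, ha.symm, hb.symm, hA, hB,
    by linear_combination -p0, by linear_combination -q0, by linear_combination -r3 / 2⟩

end Pool.Agent.Helper891_QD
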