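import Mathlib

/-!
# Homomorphisms of the Galois group onto the dihedral group, and the compositum of dihedral octic fields
-/

set_option autoImplicit false

namespace Pool.Agent.Helper891_QD

open IntermediateField

section group

/-- coordinates on the dihedral group -/
def phi (x y g : ZMod 2) : DihedralGroup 4 :=
  if x = y then .r ((if x = 0 then 0 else 1) + (if g = 0 then 0 else 2))
  else .sr ((if y = 0 then 0 else 1) + (if g = 0 then 0 else 2))

lemma phi_mul : ∀ x y g x' y' g' : ZMod 2,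
    phi x y g * phi x' y' g' = phi (x + x') (y + y') (g + g' + y * x') := by decide

lemma phi_one : phi 0 0 0 = 1 := by decide

lemma phi_inj : ∀ x y g : ZMod 2, phi x y g = 1 → x = 0 ∧ y = 0 ∧ g = 0 := by decide

lemma phi_gen : ∀ (g g' : ZMod 2) (t : DihedralGroup 4), 
    t = 1 ∨ t = phi 1 0 g ∨ t = phi 0 1 g' ∨ t = phi 1 0 g * phi 0 1 g' ∨
    t = phi 0 1 g' * phi 1 0 g ∨ t = phi 1 0 g * phi 0 1 g' * phi 1 0 g ∨
    t = phi 0 1 g' * phi 1 0 g * phi 0 1 g' ∨
    t = phi 1 0 g * phi 0 1 g' * phi 1 0 g * phi 0 1 g' := by decide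

/-- coordinates on the quaternion group `z ^ f i ^ α j ^ β` -/
def al : QuaternionGroup 2 → ZMod 2
  | .a k => if k = 1 ∨ k = 3 then 1 else 0
  | .xa k => if k = 1 ∨ k = 3 then 1 else 0

/-- coordinates on the quaternion group -/
def be : QuaternionGroup 2 → ZMod 2
  | .a _ => 0
  | .xa _ => 1

/-- coordinates on the quaternion group -/
def fe : QuaternionGroup 2 → ZMod 2
  | .a k => if k = 2 ∨ k = 3 then 1 else 0
  | .xa k => if k = 1 ∨ k = 2 then 1 else 0

lemma al_mul : ∀ q q' : QuaternionGroup 2, al (q * q') = al q + al q' := by decide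

lemma be_mul : ∀ q q' : QuaternionGroup 2, be (q * q') = be q + be q' := by decide

lemma fe_mul : ∀ q q' : QuaternionGroup 2,
    fe (q * q') = fe q + fe q' + al q * al q' + be q * al q' + be q * be q' := by decide

lemma coord_one : ∀ q : QuaternionGroup 2, al q = 0 → be q = 0 → fe q = 0 → q = 1 := by decide

end group

variable {k C : Type} [Field k] [Field C] [Algebra k C]

/-- `L` is a Galois extension of `k` whose Galois group is dihedral of order 8. -/
def IsD4 (L : IntermediateField k C) : Prop :=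
  IsGalois k L ∧ Nonempty ((L ≃ₐ[k] L) ≃* DihedralGroup 4)

variable (k C) in
/-- The compositum of all the Galois extensions of `k` in `C` whose Galois group is dihedral of
order 8. -/
def comp : IntermediateField k C := sSup {L | IsD4 L}

/-- A function on the Galois group that is zero on the automorphisms over a finite extension. -/
def Fin0 (h : Gal(C/k) → ZMod 2) : Prop :=
  ∃ E : IntermediateField k C, FiniteDimensional k E ∧ ∀ σ ∈ E.fixingSubgroup, h σ = 0

lemma Fin0.add {h h' : Gal(C/k) → ZMod 2} (a : Fin0 h) (b : Fin0 h') :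
    Fin0 (fun σ => h σ + h' σ) := by
  obtain ⟨E, hE, h1⟩ := a
  obtain ⟨E', hE', h2⟩ := b
  refine ⟨E ⊔ E', inferInstance, fun σ hσ => ?_⟩
  change h σ + h' σ = 0
  rw [h1 σ (IntermediateField.fixingSubgroup_antitone le_sup_left hσ),
    h2 σ (IntermediateField.fixingSubgroup_antitone le_sup_right hσ), add_zero]

lemma Fin0.mul {h h' : Gal(C/k) → ZMod 2} (a : Fin0 h) : Fin0 (fun σ => h σ * h' σ) := by
  obtain ⟨E, hE, h1⟩ := a
  refine ⟨E, hE, fun σ hσ => ?_⟩
  change h σ * h' σ = 0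
  rw [h1 σ hσ, zero_mul]

variable [IsGalois k C]

/-- homomorphisms onto the dihedral group -/
theorem trivD (φ : Gal(C/k) →* DihedralGroup 4) (hs : Function.Surjective φ)
    (E : IntermediateField k C) [FiniteDimensional k E] (hE : E.fixingSubgroup ≤ φ.ker) :
    (comp k C).fixingSubgroup ≤ φ.ker := by
  have ho : IsOpen (φ.ker : Set Gal(C/k)) :=
    Subgroup.isOpen_mono hE (IntermediateField.fixingSubgroup_isOpen E)
  let H : ClosedSubgroup Gal(C/k) := ⟨φ.ker, Subgroup.isClosed_of_isOpen _ ho⟩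
  have hH : H.1 = φ.ker := rfl
  have : H.1.Normal := by rw [hH]; infer_instance
  have h1 := InfiniteGalois.fixingSubgroup_fixedField H
  have hg : IsGalois k (fixedField H.1) :=
    (InfiniteGalois.normal_iff_isGalois _).1 (by rw [h1]; infer_instance)
  have hD : IsD4 (fixedField H.1) := by
    refine ⟨hg, ⟨?_⟩⟩
    have e1 := (InfiniteGalois.normalAutEquivQuotient H).symm
    have e2 : Gal(C/k) ⧸ H.1 ≃* DihedralGroup 4 :=
      QuotientGroup.quotientKerEquivOfSurjective φ hs
    exact e1.trans e2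
  have h2 : fixedField H.1 ≤ comp k C := le_sSup hD
  have h3 := IntermediateField.fixingSubgroup_antitone h2
  rwa [h1, hH] at h3

/-- coordinates of a homomorphism onto the dihedral group -/
theorem trivG {x y g : Gal(C/k) → ZMod 2}
    (hx : ∀ σ τ, x (σ * τ) = x σ + x τ) (hy : ∀ σ τ, y (σ * τ) = y σ + y τ)
    (hg : ∀ σ τ, g (σ * τ) = g σ + g τ + y σ * x τ) (fx : Fin0 x) (fy : Fin0 y) (fg : Fin0 g)
    (x1 : ∃ σ, x σ ≠ 0) (y1 : ∃ σ, y σ ≠ 0) (xy1 : ∃ σ, x σ ≠ y σ) {σ : Gal(C/k)}
    (hσ : σ ∈ (comp k C).fixingSubgroup) : x σ = 0 ∧ y σ = 0 ∧ g σ = 0 := by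
  have h01 : ∀ a : ZMod 2, a ≠ 0 → a = 1 := by decide
  have z2 : ∀ a : ZMod 2, a = 0 ∨ a = 1 := by decide
  obtain ⟨E, hE, h1⟩ := (fx.add fy).add fg
  obtain ⟨E1, hE1, e1⟩ := fx
  obtain ⟨E2, hE2, e2⟩ := fy
  obtain ⟨E3, hE3, e3⟩ := fg
  let φ : Gal(C/k) →* DihedralGroup 4 := MonoidHom.mk' (fun σ => phi (x σ) (y σ) (g σ)) (by
    intro σ τ
    rw [phi_mul, hx, hy, hg])
  have hφ : ∀ σ, φ σ = phi (x σ) (y σ) (g σ) := fun _ => rfl
  -- elements with coordinates `(1, 0)` and `(0, 1)`
  have hp : ∃ σ, x σ = 1 ∧ y σ = 0 := by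
    by_contra hc
    push Not at hc
    obtain ⟨a, ha⟩ := x1
    obtain ⟨b, hb⟩ := xy1
    have ha' := h01 _ ha
    have hay : y a = 1 := by
      rcases z2 (y a) with h | h
      · exact absurd h (hc a ha')
      · exact h
    rcases z2 (x b) with h | h
    · have hyb : y b = 1 := by
        rcases z2 (y b) with h' | h'
        · exact absurd (h.trans h'.symm) hb
        · exact h'
      exact hc (a * b) (by rw [hx, ha', h]; decide) (by rw [hy, hay, hyb]; decide)
    · rcases z2 (y b) with h' | h'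
      · exact hc b h h'
      · exact hb (h.trans h'.symm)
  have hq : ∃ σ, x σ = 0 ∧ y σ = 1 := by
    obtain ⟨p, hp1, hp2⟩ := hp
    obtain ⟨b, hb⟩ := y1
    have hb' := h01 _ hb
    rcases z2 (x b) with h | h
    · exact ⟨b, h, hb'⟩
    · exact ⟨p * b, by rw [hx, hp1, h]; decide, by rw [hy, hp2, hb']; decide⟩
  obtain ⟨p, hp1, hp2⟩ := hp
  obtain ⟨q, hq1, hq2⟩ := hq
  have hs : Function.Surjective φ := by
    intro t
    have hφp : φ p = phi 1 0 (g p) := by rw [hφ, hp1, hp2]
    have hφq : φ q = phi 0 1 (g q) := by rw [hφ, hq1, hq2]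
    rcases phi_gen (g p) (g q) t with h | h | h | h | h | h | h | h
    · exact ⟨1, by rw [map_one, h]⟩
    · exact ⟨p, by rw [hφp, h]⟩
    · exact ⟨q, by rw [hφq, h]⟩
    · exact ⟨p * q, by rw [map_mul, hφp, hφq, h]⟩
    · exact ⟨q * p, by rw [map_mul, hφp, hφq, h]⟩
    · exact ⟨p * q * p, by rw [map_mul, map_mul, hφp, hφq, h]⟩
    · exact ⟨q * p * q, by rw [map_mul, map_mul, hφp, hφq, h]⟩
    · exact ⟨p * q * p * q, by rw [map_mul, map_mul, map_mul, hφp, hφq, h]⟩
  have h2 := trivD φ hs ((E1 ⊔ E2) ⊔ E3) (by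
    intro σ hσ
    rw [MonoidHom.mem_ker, hφ,
      e1 σ (IntermediateField.fixingSubgroup_antitone (le_sup_left.trans le_sup_left) hσ),
      e2 σ (IntermediateField.fixingSubgroup_antitone (le_sup_right.trans le_sup_left) hσ),
      e3 σ (IntermediateField.fixingSubgroup_antitone le_sup_right hσ), phi_one]) hσ
  rw [MonoidHom.mem_ker, hφ] at h2
  exact phi_inj _ _ _ h2

end Pool.Agent.Helper891_QD
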