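import Pool.Agent.Helper891_QD.Grp

/-!
# The cochains attached to square roots
-/

set_option autoImplicit false

namespace Pool.Agent.Helper891_QD

open IntermediateField

/-- the sign -/
def sg (C : Type) [Field C] (c : ZMod 2) : C := if c = 0 then 1 else -1

section sign

variable {C : Type} [Field C]

lemma sg_zero : sg C 0 = 1 := by simp [sg]

lemma sg_one : sg C 1 = -1 := by
  unfold sg
  rw [if_neg (by decide)]

lemma z2 (a : ZMod 2) : a = 0 ∨ a = 1 := by revert a; decide

lemma sg_add (a b : ZMod 2) : sg C (a + b) = sg C a * sg C b := by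
  rcases z2 a with rfl | rfl <;> rcases z2 b with rfl | rfl
  · simp [sg_zero]
  · simp [sg_zero]
  · simp [sg_zero]
  · rw [show (1 : ZMod 2) + 1 = 0 from by decide, sg_zero, sg_one]; ring

lemma sg_ne (a : ZMod 2) : sg C a ≠ 0 := by
  rcases z2 a with rfl | rfl
  · rw [sg_zero]; exact one_ne_zero
  · rw [sg_one]; exact neg_ne_zero.2 one_ne_zero

lemma sg_inj [CharZero C] {a b : ZMod 2} {X : C} (hX : X ≠ 0) (h : sg C a * X = sg C b * X) :
    a = b := by
  have h1 := mul_right_cancel₀ hX h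
  rcases z2 a with rfl | rfl <;> rcases z2 b with rfl | rfl
  · rfl
  · rw [sg_zero, sg_one] at h1
    exact absurd h1 (by norm_num)
  · rw [sg_zero, sg_one] at h1
    exact absurd h1 (by norm_num)
  · rfl

end sign

variable {C : Type} [Field C] [Algebra ℚ C]

/-- the character of a square root -/
noncomputable def chi (X : C) (σ : Gal(C/ℚ)) : ZMod 2 := by
  classical exact if σ X = X then 0 else 1

lemma map_sg (σ : Gal(C/ℚ)) (c : ZMod 2) : σ (sg C c) = sg C c := by
  rcases z2 c with rfl | rfl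
  · rw [sg_zero, map_one]
  · rw [sg_one, map_neg, map_one]

lemma chi_spec {X : C} {x : ℚ} (hX : X * X = algebraMap ℚ C x) (σ : Gal(C/ℚ)) :
    σ X = sg C (chi X σ) * X := by
  have h : σ X * σ X = X * X := by rw [← map_mul, hX, AlgEquiv.commutes]
  unfold chi
  by_cases h1 : σ X = X
  · rw [if_pos h1, sg_zero, one_mul, h1]
  · rw [if_neg h1, sg_one]
    rcases mul_self_eq_mul_self_iff.1 h with h2 | h2
    · exact absurd h2 h1
    · rw [h2, neg_one_mul]

section

variable [CharZero C]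

lemma chi_of {X : C} {x : ℚ} (hX : X * X = algebraMap ℚ C x) (h0 : X ≠ 0) {σ : Gal(C/ℚ)}
    {c : ZMod 2} (h : σ X = sg C c * X) : chi X σ = c :=
  sg_inj h0 ((chi_spec hX σ).symm.trans h)

lemma chi_mul {X : C} {x : ℚ} (hX : X * X = algebraMap ℚ C x) (h0 : X ≠ 0) (σ τ : Gal(C/ℚ)) :
    chi X (σ * τ) = chi X σ + chi X τ := by
  refine chi_of hX h0 ?_
  rw [AlgEquiv.mul_apply, chi_spec hX τ, map_mul, map_sg, chi_spec hX σ, sg_add]
  ring

lemma chi_prod {X Y : C} {x y : ℚ} (hX : X * X = algebraMap ℚ C x) (h0 : X ≠ 0)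
    (hY : Y * Y = algebraMap ℚ C y) (h0' : Y ≠ 0) (σ : Gal(C/ℚ)) :
    chi (X * Y) σ = chi X σ + chi Y σ := by
  refine chi_of (x := x * y) (by rw [map_mul, ← hX, ← hY]; ring) (mul_ne_zero h0 h0') ?_
  rw [map_mul, chi_spec hX σ, chi_spec hY σ, sg_add]
  ring

/-- square roots of numbers in the same class modulo squares -/
lemma chi_eq {X Y : C} {x y q : ℚ} (hX : X * X = algebraMap ℚ C x) (h0 : X ≠ 0)
    (hY : Y * Y = algebraMap ℚ C y) (h : y = x * q * q) (σ : Gal(C/ℚ)) (h0' : Y ≠ 0) :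
    chi Y σ = chi X σ := by
  have h1 : Y * Y = (algebraMap ℚ C q * X) * (algebraMap ℚ C q * X) := by
    rw [hY, h, map_mul, map_mul, ← hX]; ring
  refine chi_of hY h0' ?_
  rcases mul_self_eq_mul_self_iff.1 h1 with h2 | h2
  · rw [h2, map_mul, AlgEquiv.commutes, chi_spec hX σ]; ring
  · rw [h2, map_neg, map_mul, AlgEquiv.commutes, chi_spec hX σ]; ring

lemma chi_fin [Algebra.IsAlgebraic ℚ C] (X : C) : Fin0 (chi X) := by
  refine ⟨adjoin ℚ {X}, adjoin.finiteDimensional (Algebra.IsIntegral.isIntegral X), ?_⟩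
  intro σ hσ
  unfold chi
  rw [if_pos]
  exact (mem_fixingSubgroup_iff _ σ).1 hσ X (mem_adjoin_simple_self ℚ X)

/-- `y = u ^ 2 - x v ^ 2`, with square roots `X` of `x`, `s` and `t` of `u + v X` and `u - v X`. -/
structure Nrm (x y u v : ℚ) (X s t : C) : Prop where
  x0 : x ≠ 0
  y0 : y ≠ 0
  hy : y = u * u - x * v * v
  hX : X * X = algebraMap ℚ C x
  hs : s * s = algebraMap ℚ C u + algebraMap ℚ C v * X
  ht : t * t = algebraMap ℚ C u - algebraMap ℚ C v * X

/-- `s` or `t` -/
def ww (s t : C) (c : ZMod 2) : C := if c = 0 then s else t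

namespace Nrm

variable {x y u v : ℚ} {X s t : C} (N : Nrm x y u v X s t)
include N

lemma X0 : X ≠ 0 := by
  intro h
  have h1 := N.hX
  rw [h, mul_zero] at h1
  exact N.x0 ((map_eq_zero (algebraMap ℚ C)).1 h1.symm)

lemma hst : (s * t) * (s * t) = algebraMap ℚ C y := by
  rw [N.hy, map_sub, map_mul, map_mul, map_mul, ← N.hX]
  linear_combination (t * t) * N.hs + (algebraMap ℚ C u + algebraMap ℚ C v * X) * N.ht

lemma st0 : s * t ≠ 0 := by
  intro h
  have h1 := N.hst
  rw [h, mul_zero] at h1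
  exact N.y0 ((map_eq_zero (algebraMap ℚ C)).1 h1.symm)

lemma s0 : s ≠ 0 := left_ne_zero_of_mul N.st0

lemma t0 : t ≠ 0 := right_ne_zero_of_mul N.st0

lemma w0 (c : ZMod 2) : ww s t c ≠ 0 := by
  unfold ww
  split_ifs
  · exact N.s0
  · exact N.t0

/-- there is a sign -/
lemma exists_g (σ : Gal(C/ℚ)) : ∃ c : ZMod 2, σ s = sg C c * ww s t (chi X σ) := by
  have h : σ s * σ s = ww s t (chi X σ) * ww s t (chi X σ) := by
    rw [← map_mul, N.hs, map_add, map_mul, AlgEquiv.commutes, AlgEquiv.commutes,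
      chi_spec N.hX σ]
    rcases z2 (chi X σ) with h | h
    · rw [h, sg_zero, ww, if_pos rfl, N.hs]; ring
    · rw [h, sg_one, ww, if_neg (by decide), N.ht]; ring
  rcases mul_self_eq_mul_self_iff.1 h with h2 | h2
  · exact ⟨0, by rw [sg_zero, one_mul, h2]⟩
  · exact ⟨1, by rw [sg_one, h2]; ring⟩

end Nrm

/-- the cochain attached to a solution of the norm equation -/
noncomputable def gg (X s t : C) (σ : Gal(C/ℚ)) : ZMod 2 := by
  classical exact if σ s = ww s t (chi X σ) then 0 else 1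

namespace Nrm

variable {x y u v : ℚ} {X s t : C} (N : Nrm x y u v X s t)
include N

lemma gg_spec (σ : Gal(C/ℚ)) : σ s = sg C (gg X s t σ) * ww s t (chi X σ) := by
  obtain ⟨c, hc⟩ := N.exists_g σ
  have : gg X s t σ = c := by
    unfold gg
    rcases z2 c with rfl | rfl
    · rw [if_pos]
      rw [hc, sg_zero, one_mul]
    · rw [if_neg]
      intro h
      rw [hc] at h
      nth_rw 2 [← one_mul (ww s t (chi X σ))] at h
      rw [← sg_zero (C := C)] at h
      exact absurd (sg_inj (N.w0 _) h) (by decide)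
  rw [this, hc]

lemma gg_of {σ : Gal(C/ℚ)} {c : ZMod 2} (h : σ s = sg C c * ww s t (chi X σ)) :
    gg X s t σ = c :=
  sg_inj (N.w0 _) ((N.gg_spec σ).symm.trans h)

lemma map_ww (σ : Gal(C/ℚ)) (c : ZMod 2) :
    σ (ww s t c) = sg C (gg X s t σ + chi (s * t) σ * c) * ww s t (c + chi X σ) := by
  rcases z2 c with rfl | rfl
  · rw [mul_zero, add_zero, zero_add]
    change σ s = _
    exact N.gg_spec σ
  · have h1 : σ s * σ t = sg C (chi (s * t) σ) * (s * t) := by
      rw [← map_mul, chi_spec N.hst σ]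
    have h2 : ww s t (chi X σ) * ww s t (1 + chi X σ) = s * t := by
      rcases z2 (chi X σ) with h | h
      · rw [h, add_zero]; rfl
      · rw [h, show (1 : ZMod 2) + 1 = 0 from by decide]
        change t * s = s * t
        ring
    have h3 : σ s ≠ 0 := (map_ne_zero σ).2 N.s0
    apply mul_left_cancel₀ h3
    change σ s * σ t = _
    rw [h1, mul_one, sg_add, N.gg_spec σ]
    have h4 : sg C (gg X s t σ) * sg C (gg X s t σ) = 1 := by
      rw [← sg_add, CharTwo.add_self_eq_zero, sg_zero]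
    linear_combination (-sg C (chi (s * t) σ)) * h2 -
      sg C (chi (s * t) σ) * ww s t (chi X σ) * ww s t (1 + chi X σ) * h4

theorem gg_mul (σ τ : Gal(C/ℚ)) :
    gg X s t (σ * τ) = gg X s t σ + gg X s t τ + chi (s * t) σ * chi X τ := by
  refine N.gg_of ?_
  rw [AlgEquiv.mul_apply, N.gg_spec τ, map_mul, map_sg, N.map_ww, chi_mul N.hX N.X0,
    add_comm (chi X τ) (chi X σ), ← mul_assoc, ← sg_add]
  congr 2
  ring

theorem gg_fin [Algebra.IsAlgebraic ℚ C] : Fin0 (gg X s t) := by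
  refine ⟨adjoin ℚ {X} ⊔ adjoin ℚ {s}, ?_, ?_⟩
  · have := adjoin.finiteDimensional (K := ℚ) (Algebra.IsIntegral.isIntegral (R := ℚ) X)
    have := adjoin.finiteDimensional (K := ℚ) (Algebra.IsIntegral.isIntegral (R := ℚ) s)
    exact inferInstance
  · intro σ hσ
    have h1 : σ X = X := (mem_fixingSubgroup_iff _ σ).1
      (IntermediateField.fixingSubgroup_antitone le_sup_left hσ) X (mem_adjoin_simple_self ℚ X)
    have h2 : σ s = s := (mem_fixingSubgroup_iff _ σ).1
      (IntermediateField.fixingSubgroup_antitone le_sup_right hσ) s (mem_adjoin_simple_self ℚ s)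
    refine N.gg_of ?_
    have h3 : chi X σ = 0 := by unfold chi; rw [if_pos h1]
    rw [h3, h2, sg_zero, one_mul]
    rfl

end Nrm

/-- existence -/
lemma exists_nrm [IsAlgClosed C] {x y u v : ℚ} (x0 : x ≠ 0) (y0 : y ≠ 0)
    (hy : y = u * u - x * v * v) {X : C} (hX : X * X = algebraMap ℚ C x) :
    ∃ s t : C, Nrm x y u v X s t := by
  obtain ⟨s, hs⟩ := IsAlgClosed.exists_pow_nat_eq (algebraMap ℚ C u + algebraMap ℚ C v * X)
    (n := 2) (by norm_num)
  obtain ⟨t, ht⟩ := IsAlgClosed.exists_pow_nat_eq (algebraMap ℚ C u - algebraMap ℚ C v * X)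
    (n := 2) (by norm_num)
  exact ⟨s, t, x0, y0, hy, hX, by rw [← hs]; ring, by rw [← ht]; ring⟩

end

end Pool.Agent.Helper891_QD
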