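import Pool.Agent.Helper891_QD.Kum

/-!
# The cochains are trivial over the compositum of the dihedral extensions
-/

set_option autoImplicit false
set_option linter.unusedSectionVars false

namespace Pool.Agent.Helper891_QD

open IntermediateField

variable {C : Type} [Field C] [Algebra ℚ C] [CharZero C] [IsAlgClosed C] [Algebra.IsAlgebraic ℚ C]

lemma galC : IsGalois ℚ C := by
  have : Normal ℚ C := normal_iff.2 fun x =>
    ⟨Algebra.IsIntegral.isIntegral x, IsAlgClosed.splits _⟩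
  exact ⟨⟩

lemma rat_of_fixed {X : C} (h : ∀ σ : Gal(C/ℚ), σ X = X) : ∃ q : ℚ, algebraMap ℚ C q = X := by
  have := galC (C := C)
  obtain ⟨q, hq⟩ := (InfiniteGalois.mem_range_algebraMap_iff_fixed (k := ℚ) X).2 h
  exact ⟨q, hq⟩

lemma exists_chi {X : C} {x : ℚ} (hX : X * X = algebraMap ℚ C x) (hx : ¬ IsSquare x) :
    ∃ σ : Gal(C/ℚ), chi X σ ≠ 0 := by
  by_contra hc
  push Not at hc
  obtain ⟨q, hq⟩ := rat_of_fixed (X := X) fun σ => by
    rw [chi_spec hX σ, hc σ, sg_zero, one_mul]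
  apply hx
  refine ⟨q, ?_⟩
  apply (algebraMap ℚ C).injective
  rw [← hX, ← hq, map_mul]

lemma chi_sq {X : C} {x q : ℚ} (hX : X * X = algebraMap ℚ C x) (h : x = q * q) (h0 : X ≠ 0)
    (σ : Gal(C/ℚ)) : chi X σ = 0 := by
  have h1 : X * X = algebraMap ℚ C q * algebraMap ℚ C q := by rw [hX, h, map_mul]
  refine chi_of hX h0 ?_
  rw [sg_zero, one_mul]
  rcases mul_self_eq_mul_self_iff.1 h1 with h2 | h2
  · rw [h2, AlgEquiv.commutes]
  · rw [h2, map_neg, AlgEquiv.commutes]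

/-- the nondegenerate case -/
theorem trivN {x y u v : ℚ} {X s t : C} (N : Nrm x y u v X s t) (hx : ¬ IsSquare x)
    (hy : ¬ IsSquare y) (hxy : ¬ IsSquare (x * y)) {σ : Gal(C/ℚ)}
    (hσ : σ ∈ (comp ℚ C).fixingSubgroup) : chi X σ = 0 ∧ chi (s * t) σ = 0 ∧ gg X s t σ = 0 := by
  have := galC (C := C)
  refine trivG (chi_mul N.hX N.X0) (chi_mul N.hst N.st0) N.gg_mul (chi_fin X) (chi_fin _) N.gg_fin
    (exists_chi N.hX hx) (exists_chi N.hst hy) ?_ hσ
  have h1 : (X * (s * t)) * (X * (s * t)) = algebraMap ℚ C (x * y) := by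
    rw [map_mul, ← N.hX, ← N.hst]; ring
  obtain ⟨τ, hτ⟩ := exists_chi h1 hxy
  refine ⟨τ, fun h => hτ ?_⟩
  rw [chi_prod N.hX N.X0 N.hst N.st0, h, CharTwo.add_self_eq_zero]

/-- a norm -/
lemma exists_z (n : ℤ) (hn : ¬ IsSquare (n : ℚ)) :
    ∃ z u v : ℚ, z = u * u - n * v * v ∧ ¬ IsSquare z ∧ ¬ IsSquare ((n : ℚ) * z) := by
  have hneg : ∀ q : ℚ, q < 0 → ¬ IsSquare q := fun q hq h => absurd h.nonneg (not_le.2 hq)
  have h0 : n ≠ 0 := by
    rintro rfl
    exact hn ⟨0, by norm_num⟩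
  by_cases h1 : n = -1
  · subst h1
    refine ⟨2, 1, 1, by norm_num, ?_, hneg _ (by norm_num)⟩
    rw [show (2 : ℚ) = ((2 : ℤ) : ℚ) by norm_num, Rat.isSquare_intCast_iff]
    rintro ⟨m, hm⟩
    have : m * m ≤ 1 ∨ 4 ≤ m * m := by
      rcases le_or_gt (|m|) 1 with h | h
      · left
        have := abs_mul_abs_self m
        nlinarith [abs_nonneg m]
      · right
        have := abs_mul_abs_self m
        nlinarith [abs_nonneg m]
    omega
  · have hz : ¬ IsSquare (n * n + n + 1) := by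
      rintro ⟨m, hm⟩
      have hm' : |m| * |m| = n * n + n + 1 := by rw [abs_mul_abs_self, hm]
      have hm0 := abs_nonneg m
      rcases lt_or_gt_of_ne h0 with h | h
      · have h2 : n ≤ -2 := by omega
        rcases le_or_gt (|m|) (-n - 1) with h3 | h3
        · nlinarith
        · have h4 : -n ≤ |m| := by omega
          nlinarith
      · rcases le_or_gt (|m|) n with h3 | h3
        · nlinarith
        · have h4 : n + 1 ≤ |m| := by omega
          nlinarith
    refine ⟨((n * n + n + 1 : ℤ) : ℚ), n + 1, 1, by push_cast; ring, ?_, ?_⟩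
    · rwa [Rat.isSquare_intCast_iff]
    · rcases lt_or_gt_of_ne h0 with h | h
      · apply hneg
        have h2 : (0 : ℤ) < n * n + n + 1 := by nlinarith
        have h3 : (0 : ℚ) < ((n * n + n + 1 : ℤ) : ℚ) := by exact_mod_cast h2
        have h4 : (n : ℚ) < 0 := by exact_mod_cast h
        exact mul_neg_of_neg_of_pos h4 h3
      · rw [← Int.cast_mul, Rat.isSquare_intCast_iff]
        rintro ⟨m, hm⟩
        have hg : IsCoprime n (n * n + n + 1) := ⟨-(n + 1), 1, by ring⟩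
        obtain ⟨a, ha | ha⟩ := Int.sq_of_gcd_eq_one (Int.isCoprime_iff_gcd_eq_one.1 hg)
          (c := m) (by rw [hm]; ring)
        · apply hn
          rw [Rat.isSquare_intCast_iff]
          exact ⟨a, by rw [ha]; ring⟩
        · nlinarith [sq_nonneg a]

lemma ne_zero_of_nonsq {x : ℚ} (hx : ¬ IsSquare x) : x ≠ 0 := by
  rintro rfl
  exact hx ⟨0, by norm_num⟩

/-- an integer in the same class -/
lemma exists_int (x : ℚ) (hx : ¬ IsSquare x) :
    ∃ (n : ℤ) (d : ℚ), d ≠ 0 ∧ (n : ℚ) = x * d * d ∧ ¬ IsSquare (n : ℚ) := by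
  have hd : (x.den : ℚ) ≠ 0 := by exact_mod_cast x.den_ne_zero
  have h1 : ((x.num * x.den : ℤ) : ℚ) = x * x.den * x.den := by
    push_cast
    have := Rat.mul_den_eq_num x
    rw [← this]
  refine ⟨x.num * x.den, x.den, hd, h1, ?_⟩
  rw [h1]
  rintro ⟨q, hq⟩
  apply hx
  refine ⟨q / x.den, ?_⟩
  field_simp
  linear_combination hq

/-- the characters of the square roots of rational numbers -/
theorem triv_chi {X : C} {x : ℚ} (hX : X * X = algebraMap ℚ C x) (h0 : X ≠ 0)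
    {σ : Gal(C/ℚ)} (hσ : σ ∈ (comp ℚ C).fixingSubgroup) : chi X σ = 0 := by
  by_cases hx : IsSquare x
  · obtain ⟨q, hq⟩ := hx
    exact chi_sq hX hq h0 σ
  obtain ⟨n, d, hd, hn, hns⟩ := exists_int x hx
  obtain ⟨z, u, v, hz, hz1, hz2⟩ := exists_z n hns
  have hX' : (algebraMap ℚ C d * X) * (algebraMap ℚ C d * X) = algebraMap ℚ C n := by
    rw [hn, map_mul, map_mul, ← hX]; ring
  have h0' : algebraMap ℚ C d * X ≠ 0 :=
    mul_ne_zero (by rwa [Ne, map_eq_zero]) h0
  obtain ⟨s, t, N⟩ := exists_nrm (ne_zero_of_nonsq hns) (ne_zero_of_nonsq hz1) hz hX'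
  have h1 := (trivN N hns hz1 hz2 hσ).1
  rwa [chi_eq hX h0 hX' hn σ h0'] at h1

/-- homomorphisms to the group of order two -/
theorem trivC {h : Gal(C/ℚ) → ZMod 2} (hm : ∀ σ τ, h (σ * τ) = h σ + h τ) (hf : Fin0 h)
    {σ : Gal(C/ℚ)} (hσ : σ ∈ (comp ℚ C).fixingSubgroup) : h σ = 0 := by
  have := galC (C := C)
  by_contra hne
  have h1 : h 1 = 0 := by
    have := hm 1 1
    rw [mul_one] at this
    exact left_eq_add.1 this
  have hinv : ∀ τ, h τ⁻¹ = h τ := by
    intro τ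
    have h2 := hm τ⁻¹ τ
    rw [inv_mul_cancel, h1] at h2
    have h3 : ∀ a b : ZMod 2, 0 = a + b → a = b := by decide
    exact h3 _ _ h2
  let U : Subgroup Gal(C/ℚ) :=
    { carrier := {τ | h τ = 0}
      mul_mem' := fun {a b} ha hb => by
        change h (a * b) = 0
        rw [hm, show h a = 0 from ha, show h b = 0 from hb, add_zero]
      one_mem' := h1
      inv_mem' := fun {a} ha => by
        change h a⁻¹ = 0
        rw [hinv, show h a = 0 from ha] }
  have hU : ∀ τ, τ ∈ U ↔ h τ = 0 := fun _ => Iff.rfl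
  obtain ⟨E, hE, hE1⟩ := hf
  have ho : IsOpen (U : Set Gal(C/ℚ)) :=
    Subgroup.isOpen_mono (H₁ := E.fixingSubgroup) (fun τ hτ => hE1 τ hτ)
      (IntermediateField.fixingSubgroup_isOpen E)
  let H : ClosedSubgroup Gal(C/ℚ) := ⟨U, Subgroup.isClosed_of_isOpen _ ho⟩
  have h2 := InfiniteGalois.fixingSubgroup_fixedField H
  -- an element of the fixed field which is not rational
  have h3 : ∃ w : C, (∀ τ, h τ = 0 → τ w = w) ∧ ∃ τ : Gal(C/ℚ), τ w ≠ w := by
    by_contra hc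
    push Not at hc
    have h4 : σ ∈ (fixedField H.1).fixingSubgroup := by
      rw [IntermediateField.mem_fixingSubgroup_iff]
      intro w hw
      refine hc w (fun τ hτ => ?_) σ
      exact hw ⟨τ, hτ⟩
    rw [h2] at h4
    exact hne h4
  obtain ⟨w, hw, σ₀, hσ₀⟩ := h3
  have hs0 : h σ₀ = 1 := by
    rcases z2 (h σ₀) with h4 | h4
    · exact absurd (hw _ h4) hσ₀
    · exact h4
  have hsw : ∀ τ, h τ = 0 → τ (σ₀ w) = σ₀ w := by
    intro τ hτ
    have h4 := hw (σ₀⁻¹ * (τ * σ₀)) (by rw [hm, hm, hinv, hτ, hs0]; decide)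
    rw [AlgEquiv.mul_apply, AlgEquiv.mul_apply] at h4
    have h5 := congrArg σ₀ h4
    rwa [← AlgEquiv.mul_apply, mul_inv_cancel, AlgEquiv.one_apply] at h5
  set ε : C := w - σ₀ w with hε
  have hε0 : ε ≠ 0 := sub_ne_zero.2 (Ne.symm hσ₀)
  have he0 : ∀ τ, h τ = 0 → τ ε = ε := by
    intro τ hτ
    rw [hε, map_sub, hw τ hτ, hsw τ hτ]
  have he1 : σ₀ ε = -ε := by
    rw [hε, map_sub]
    have h4 := hw (σ₀ * σ₀) (by rw [hm, hs0]; decide)
    rw [AlgEquiv.mul_apply] at h4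
    rw [h4]; ring
  have he : ∀ τ, τ ε = sg C (h τ) * ε := by
    intro τ
    rcases z2 (h τ) with h4 | h4
    · rw [h4, sg_zero, one_mul, he0 τ h4]
    · have h5 := he0 (σ₀⁻¹ * τ) (by rw [hm, hinv, h4, hs0]; decide)
      have h6 := congrArg σ₀ h5
      rw [← AlgEquiv.mul_apply, ← mul_assoc, mul_inv_cancel, one_mul, he1] at h6
      rw [h4, sg_one, h6]; ring
  obtain ⟨e, he'⟩ := rat_of_fixed (X := ε * ε) fun τ => by
    rw [map_mul, he τ]
    have h4 : sg C (h τ) * sg C (h τ) = 1 := by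
      rw [← sg_add, CharTwo.add_self_eq_zero, sg_zero]
    linear_combination (ε * ε) * h4
  have h5 := triv_chi he'.symm hε0 hσ
  rw [chi_of he'.symm hε0 (he σ)] at h5
  exact hne h5

/-- the general case -/
theorem trivE {x y u v : ℚ} {X s t : C} (N : Nrm x y u v X s t) (hx : ¬ IsSquare x)
    {σ : Gal(C/ℚ)} (hσ : σ ∈ (comp ℚ C).fixingSubgroup) : gg X s t σ = 0 := by
  by_cases hy : IsSquare y
  · obtain ⟨q, hq⟩ := hy
    refine trivC (fun a b => ?_) N.gg_fin hσ
    rw [N.gg_mul, chi_sq N.hst hq N.st0, zero_mul, add_zero]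
  by_cases hxy : IsSquare (x * y)
  swap
  · exact (trivN N hx hy hxy hσ).2.2
  obtain ⟨q, hq⟩ := hxy
  have hq0 : q ≠ 0 := by
    rintro rfl
    rw [mul_zero] at hq
    exact (mul_ne_zero N.x0 N.y0) hq
  obtain ⟨n, d, hd, hn, hns⟩ := exists_int x hx
  obtain ⟨z, u2, v2, hz, hz1, hz2⟩ := exists_z n hns
  have hX' : (algebraMap ℚ C d * X) * (algebraMap ℚ C d * X) = algebraMap ℚ C n := by
    rw [hn, map_mul, map_mul, ← N.hX]; ring
  have h0' : algebraMap ℚ C d * X ≠ 0 :=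
    mul_ne_zero (by rwa [Ne, map_eq_zero]) N.X0
  set X' : C := algebraMap ℚ C d * X
  have hn0 := ne_zero_of_nonsq hns
  have hz0 := ne_zero_of_nonsq hz1
  obtain ⟨s2, t2, N2⟩ := exists_nrm hn0 hz0 hz hX'
  obtain ⟨s3, t3, N3⟩ := exists_nrm (u := d * x * u / q * u2 + n * (x * v / q) * v2)
    (v := x * v / q * u2 + d * x * u / q * v2) hn0 (mul_ne_zero hn0 hz0) (by
      have h1 : (n : ℚ) = (d * x * u / q) * (d * x * u / q) - n * (x * v / q) * (x * v / q) := by
        have h2 := N.hy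
        rw [hn]
        field_simp
        linear_combination (-x) * hq + x ^ 2 * h2
      have h3 : (n : ℚ) * z = ((d * x * u / q) * (d * x * u / q) - n * (x * v / q) * (x * v / q)) *
          (u2 * u2 - n * v2 * v2) := by rw [← h1, ← hz]
      rw [h3]
      ring) hX'
  have e2 := (trivN N2 hns hz1 hz2 hσ).2.2
  have e3 := (trivN N3 hns hz2 (by
    rintro ⟨r, hr⟩
    apply hz1
    refine ⟨r / n, ?_⟩
    field_simp
    linear_combination hr) hσ).2.2
  have c1 : ∀ τ, chi X' τ = chi X τ := fun τ => chi_eq N.hX N.X0 hX' hn τ h0'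
  have c2 : ∀ τ, chi (s * t) τ = chi X τ := fun τ =>
    chi_eq (q := q / x) N.hX N.X0 N.hst (by
      have := N.x0
      field_simp
      linear_combination hq) τ N.st0
  have c3 : ∀ τ, chi (s3 * t3) τ = chi X' τ + chi (s2 * t2) τ := by
    intro τ
    rw [← chi_prod hX' h0' N2.hst N2.st0]
    exact chi_eq (q := 1) (x := n * z) (by rw [map_mul, ← hX', ← N2.hst]; ring)
      (mul_ne_zero h0' N2.st0) N3.hst (by ring) τ N3.st0
  have h1 := trivC (h := fun τ => (gg X s t τ + gg X' s2 t2 τ) + gg X' s3 t3 τ) (fun a b => by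
    change gg X s t (a * b) + gg X' s2 t2 (a * b) + gg X' s3 t3 (a * b) =
      (gg X s t a + gg X' s2 t2 a + gg X' s3 t3 a) + (gg X s t b + gg X' s2 t2 b + gg X' s3 t3 b)
    rw [N.gg_mul, N2.gg_mul, N3.gg_mul, c3, c2, c1, c1]
    generalize gg X s t a = p1
    generalize gg X s t b = p2
    generalize gg X' s2 t2 a = p3
    generalize gg X' s2 t2 b = p4
    generalize gg X' s3 t3 a = p5
    generalize gg X' s3 t3 b = p6
    generalize chi X a = p7
    generalize chi X b = p8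
    generalize chi (s2 * t2) a = p9
    have h2 : (2 : ZMod 2) = 0 := by decide
    linear_combination (p7 * p8 + p9 * p8) * h2) ((N.gg_fin.add N2.gg_fin).add N3.gg_fin) hσ
  change gg X s t σ + gg X' s2 t2 σ + gg X' s3 t3 σ = 0 at h1
  rwa [e2, e3, add_zero, add_zero] at h1

end Pool.Agent.Helper891_QD
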