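import Pool.Agent.Helper891_QD.Alg
import Pool.Agent.Helper891_QD.Triv

/-!
# Quaternion extensions are contained in the compositum of the dihedral extensions
-/

set_option autoImplicit false
set_option linter.unusedSectionVars false
set_option linter.style.haveILetI false

namespace Pool.Agent.Helper891_QD

open IntermediateField

/-- a Galois extension with a finite group is finite -/
lemma finite_of_finite_gal {k K : Type} [Field k] [Field K] [Algebra k K] [IsGalois k K]
    [Finite Gal(K/k)] : FiniteDimensional k K := by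
  have h1 : FiniteDimensional k (⊤ : IntermediateField k K) := by
    rw [← InfiniteGalois.isOpen_iff_finite]
    exact isOpen_discrete _
  exact Module.Finite.equiv (IntermediateField.topEquiv (F := k) (E := K)).toLinearEquiv

variable {C : Type} [Field C] [Algebra ℚ C] [CharZero C] [IsAlgClosed C] [Algebra.IsAlgebraic ℚ C]
  {K : Type} [Field K] [Algebra ℚ K] [IsGalois ℚ K]

theorem main (e : Gal(K/ℚ) ≃* QuaternionGroup 2) (j : K →ₐ[ℚ] C) (x : K) :
    j x ∈ comp ℚ C := by
  have := galC (C := C)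
  haveI : Finite Gal(K/ℚ) := Finite.of_equiv _ e.toEquiv.symm
  haveI : FiniteDimensional ℚ K := finite_of_finite_gal
  obtain ⟨A, B, a, b, a1, a2, a3, b1, b2, b3, hA0, hB0, hAA, hBB, hA, hB, ha, hb, hab⟩ :=
    exists_vec e
  letI : Algebra K C := j.toRingHom.toAlgebra
  haveI : IsScalarTower ℚ K C := IsScalarTower.of_algebraMap_eq fun x => (j.commutes x).symm
  have hr : ∀ (σ : Gal(C/ℚ)) (y : K), j (AlgEquiv.restrictNormalHom K σ y) = σ (j y) :=
    fun σ y => AlgEquiv.restrictNormal_commutes σ K y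
  set r : Gal(C/ℚ) →* Gal(K/ℚ) := AlgEquiv.restrictNormalHom K with hrdef
  have jsg : ∀ c, j (sg K c) = sg C c := fun c => by
    rcases z2 c with rfl | rfl
    · rw [sg_zero, sg_zero, map_one]
    · rw [sg_one, sg_one, map_neg, map_one]
  have rs : Function.Surjective r := AlgEquiv.restrictNormalHom_surjective C
  -- the square roots
  have XA0 : j A ≠ 0 := (map_ne_zero j).2 hA0
  have XB0 : j B ≠ 0 := (map_ne_zero j).2 hB0
  have XA : j A * j A = algebraMap ℚ C a := by rw [← map_mul, hAA, AlgHom.commutes]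
  have XB : j B * j B = algebraMap ℚ C b := by rw [← map_mul, hBB, AlgHom.commutes]
  have cA : ∀ σ, chi (j A) σ = be (e (r σ)) := fun σ =>
    chi_of XA XA0 (by rw [← hr, hA, map_mul, jsg])
  have cB : ∀ σ, chi (j B) σ = al (e (r σ)) := fun σ =>
    chi_of XB XB0 (by rw [← hr, hB, map_mul, jsg])
  have XAB : (j A * j B) * (j A * j B) = algebraMap ℚ C (a * b) := by
    rw [map_mul, ← XA, ← XB]; ring
  have cAB : ∀ σ, chi (j A * j B) σ = chi (j A) σ + chi (j B) σ :=
    chi_prod XA XA0 XB XB0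
  -- they are not rational
  have nsq : ∀ (X : C) (y : ℚ), X * X = algebraMap ℚ C y → X ≠ 0 → (∃ σ, chi X σ ≠ 0) →
      ¬ IsSquare y := by
    rintro X y h h0 ⟨σ, hσ⟩ ⟨q, hq⟩
    exact hσ (chi_sq h hq h0 σ)
  obtain ⟨σI, hσI⟩ := rs (e.symm (.a 1))
  obtain ⟨σJ, hσJ⟩ := rs (e.symm (.xa 0))
  have hna : ¬ IsSquare a := nsq _ _ XA XA0 ⟨σJ, by
    rw [cA, hσJ, e.apply_symm_apply]; decide⟩
  have hnb : ¬ IsSquare b := nsq _ _ XB XB0 ⟨σI, by
    rw [cB, hσI, e.apply_symm_apply]; decide⟩
  have hnab : ¬ IsSquare (a * b) := nsq _ _ XAB (mul_ne_zero XA0 XB0) ⟨σI, by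
    rw [cAB, cA, cB, hσI, e.apply_symm_apply]; decide⟩
  have a0 := ne_zero_of_nonsq hna
  have b0 := ne_zero_of_nonsq hnb
  -- the third number
  set d : ℚ := (a1 * b2 - a2 * b1) * (a1 * b2 - a2 * b1) - b * a2 * a2 with hd
  have d1 : d = a * b2 * b2 - (a2 * b3 - a3 * b2) * (a2 * b3 - a3 * b2) := by
    rw [hd, ha, hb]
    linear_combination (-2 * a2 * b2) * hab
  have d2 : d = b * a1 * a1 - a * b3 * b3 := by
    rw [hd, ha, hb]
    linear_combination (a3 * b3 - a1 * b1 - a2 * b2) * hab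
  have d0 : d ≠ 0 := by
    intro h
    have h2 : b * a1 * a1 = a * b3 * b3 := by linear_combination d2.symm.trans h
    have h3 : b3 = 0 := by
      by_contra hne
      apply hnab
      refine ⟨b * a1 / b3, ?_⟩
      field_simp
      linear_combination (-1 : ℚ) * h2
    have h4 : a1 = 0 := by
      rw [h3] at h2
      have : a1 * a1 = 0 := by
        apply mul_left_cancel₀ b0
        linear_combination h2
      exact mul_self_eq_zero.1 this
    have h5 : a2 * b2 = 0 := by
      rw [h3, h4] at hab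
      linear_combination hab
    rcases mul_eq_zero.1 h5 with h6 | h6
    · apply hna
      exact ⟨a3, by rw [ha, h4, h6]; ring⟩
    · apply hnb
      exact ⟨b1, by rw [hb, h3, h6]; ring⟩
  obtain ⟨D, hD'⟩ := IsAlgClosed.exists_pow_nat_eq (algebraMap ℚ C d) (n := 2) (by norm_num)
  have hD : D * D = algebraMap ℚ C d := by rw [← hD']; ring
  have D0 : D ≠ 0 := by
    rintro rfl
    rw [mul_zero] at hD
    exact d0 ((map_eq_zero (algebraMap ℚ C)).1 hD.symm)
  obtain ⟨s1, t1, N1⟩ := exists_nrm (x := a) (y := a * d) (u := a * b2) (v := a2 * b3 - a3 * b2)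
    a0 (mul_ne_zero a0 d0) (by rw [d1]; ring) XA
  obtain ⟨s2, t2, N2⟩ := exists_nrm (x := a * b) (y := b * d) (u := b * a1) (v := b3)
    (mul_ne_zero a0 b0) (mul_ne_zero b0 d0) (by rw [d2]; ring) XAB
  obtain ⟨s3, t3, N3⟩ := exists_nrm (x := b) (y := d) (u := a1 * b2 - a2 * b1) (v := a2)
    b0 d0 hd XB
  have c1 : ∀ σ, chi (s1 * t1) σ = chi (j A) σ + chi D σ := fun σ => by
    rw [← chi_prod XA XA0 hD D0]
    exact chi_eq (q := 1) (x := a * d) (by rw [map_mul, ← XA, ← hD]; ring)
      (mul_ne_zero XA0 D0) N1.hst (by ring) σ N1.st0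
  have c2 : ∀ σ, chi (s2 * t2) σ = chi (j B) σ + chi D σ := fun σ => by
    rw [← chi_prod XB XB0 hD D0]
    exact chi_eq (q := 1) (x := b * d) (by rw [map_mul, ← XB, ← hD]; ring)
      (mul_ne_zero XB0 D0) N2.hst (by ring) σ N2.st0
  have c3 : ∀ σ, chi (s3 * t3) σ = chi D σ := fun σ =>
    chi_eq (q := 1) hD D0 N3.hst (by ring) σ N3.st0
  -- the cochain of the quaternion extension
  let F : Gal(C/ℚ) → ZMod 2 := fun σ => fe (e (r σ))
  have hF : ∀ σ τ, F (σ * τ) = F σ + F τ + chi (j B) σ * chi (j B) τ + chi (j A) σ * chi (j B) τ +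
      chi (j A) σ * chi (j A) τ := fun σ τ => by
    change fe (e (r (σ * τ))) = fe (e (r σ)) + fe (e (r τ)) + _ + _ + _
    rw [map_mul, map_mul, fe_mul, cA, cA, cB, cB]
  have fF : Fin0 F := by
    have hfr : FiniteDimensional ℚ j.fieldRange := by
      let f : K →ₗ[ℚ] j.fieldRange :=
        { toFun := fun y => ⟨j y, y, rfl⟩
          map_add' := fun y y' => Subtype.ext (map_add j y y')
          map_smul' := fun c y => Subtype.ext (map_smul j c y) }
      exact Module.Finite.of_surjective f (by rintro ⟨_, y, rfl⟩; exact ⟨y, rfl⟩)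
    refine ⟨j.fieldRange, hfr, fun σ hσ => ?_⟩
    have h1 : r σ = 1 := by
      ext y
      refine j.injective ?_
      change j (r σ y) = j y
      rw [hr]
      exact (IntermediateField.mem_fixingSubgroup_iff _ σ).1 hσ (j y) ⟨y, rfl⟩
    change fe (e (r σ)) = 0
    rw [h1, map_one]
    rfl
  have key : ∀ σ ∈ (comp ℚ C).fixingSubgroup, r σ = 1 := by
    intro σ hσ
    have k1 := trivC (h := fun τ => (((F τ + gg (j A) s1 t1 τ) + gg (j A * j B) s2 t2 τ) +
      gg (j B) s3 t3 τ) + chi (j A) τ * chi (j B) τ) (fun σ τ => by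
        change F (σ * τ) + gg (j A) s1 t1 (σ * τ) + gg (j A * j B) s2 t2 (σ * τ) +
          gg (j B) s3 t3 (σ * τ) + chi (j A) (σ * τ) * chi (j B) (σ * τ) =
          (F σ + gg (j A) s1 t1 σ + gg (j A * j B) s2 t2 σ +
          gg (j B) s3 t3 σ + chi (j A) σ * chi (j B) σ) +
          (F τ + gg (j A) s1 t1 τ + gg (j A * j B) s2 t2 τ +
          gg (j B) s3 t3 τ + chi (j A) τ * chi (j B) τ)
        rw [hF, N1.gg_mul, N2.gg_mul, N3.gg_mul, chi_mul XA XA0, chi_mul XB XB0, c1, c2, c3,
          cAB]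
        generalize F σ = p1
        generalize F τ = p2
        generalize gg (j A) s1 t1 σ = p3
        generalize gg (j A) s1 t1 τ = p4
        generalize gg (j A * j B) s2 t2 σ = p5
        generalize gg (j A * j B) s2 t2 τ = p6
        generalize gg (j B) s3 t3 σ = p7
        generalize gg (j B) s3 t3 τ = p8
        generalize chi (j A) σ = A1
        generalize chi (j A) τ = A2
        generalize chi (j B) σ = B1
        generalize chi (j B) τ = B2
        generalize chi D σ = D1
        have h2 : (2 : ZMod 2) = 0 := by decide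
        linear_combination (B1 * B2 + A1 * B2 + A1 * A2 + D1 * A2 + B1 * A2 + D1 * B2) * h2)
      ((((fF.add N1.gg_fin).add N2.gg_fin).add N3.gg_fin).add (chi_fin (j A)).mul) hσ
    change F σ + gg (j A) s1 t1 σ + gg (j A * j B) s2 t2 σ +
      gg (j B) s3 t3 σ + chi (j A) σ * chi (j B) σ = 0 at k1
    have k2 := triv_chi XA XA0 hσ
    have k3 := triv_chi XB XB0 hσ
    rw [trivE N1 hna hσ, trivE N2 hnab hσ, trivE N3 hnb hσ, k2, zero_mul, add_zero, add_zero,
      add_zero, add_zero] at k1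
    rw [cA] at k2
    rw [cB] at k3
    have k4 := coord_one _ k3 k2 k1
    exact e.injective (by rw [k4, map_one])
  rw [← InfiniteGalois.fixedField_fixingSubgroup (comp ℚ C)]
  rintro ⟨σ, hσ⟩
  change σ (j x) = j x
  rw [← hr, key σ hσ]
  rfl

end Pool.Agent.Helper891_QD
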